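import Pool.Agent.U409.OA.Stm3

set_option autoImplicit false

/-! Project OA (helper409), package CONT (helper875): continuity of the partition functions. -/

namespace Pool.Agent.U875.OA

open Finset Filter Topology Pool.Agent.U409.OA

section general

variable {L R : Type} [CommSemiring R] [TopologicalSpace R] [ContinuousAdd R] [ContinuousMul R]
  {T : Type} [TopologicalSpace T] {t0 : T}

lemma row_cont (X : L → L → Bool → Bool → Bool → Bool → R) (w : T → L) :
    ∀ (vs : List (T → L)),
      (∀ v ∈ vs, ∀ r c r' c', ContinuousAt (fun t => X (w t) (v t) r c r' c') t0) →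
      ∀ (r : Bool) (cs : List Bool) (k : T → Bool → List Bool → R),
        (∀ r cs, ContinuousAt (fun t => k t r cs) t0) →
        ContinuousAt (fun t => row X (w t) (vs.map fun v => v t) r cs (k t)) t0 := by
  intro vs
  induction vs with
  | nil =>
    intro _ r cs k hk
    simp only [List.map_nil, row]
    exact hk r []
  | cons v vs ih =>
    intro hX r cs k hk
    cases cs with
    | nil =>
      simp only [List.map_cons, row]
      exact continuousAt_const
    | cons c cs =>
      simp only [List.map_cons, row]
      refine tendsto_finset_sum _ fun r' _ => tendsto_finset_sum _ fun c' _ => ?_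
      refine ContinuousAt.mul (hX v List.mem_cons_self r c r' c') ?_
      exact ih (fun v' hv' => hX v' (List.mem_cons_of_mem _ hv')) r' cs
        (fun t u cs' => k t u (c' :: cs')) (fun u cs' => hk u (c' :: cs'))

lemma Z_cont (X : L → L → Bool → Bool → Bool → Bool → R) (K : L → Bool → Bool → R) :
    ∀ (l : List (T → L)),
      (∀ f ∈ l, ∀ g ∈ l, ∀ r c r' c', ContinuousAt (fun t => X (f t) (g t) r c r' c') t0) →
      (∀ f ∈ l, ∀ s r, ContinuousAt (fun t => K (f t) s r) t0) →
      ∀ ss : List Bool, ContinuousAt (fun t => Z X K (l.map fun f => f t) ss) t0 := by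
  intro l
  induction l with
  | nil =>
    intro _ _ ss
    simp only [List.map_nil, Z]
    exact continuousAt_const
  | cons w ws ih =>
    intro hX hK ss
    cases ss with
    | nil =>
      simp only [List.map_cons, Z]
      exact continuousAt_const
    | cons s ss =>
      simp only [List.map_cons, Z]
      refine tendsto_finset_sum _ fun r _ => ?_
      refine ContinuousAt.mul (hK w List.mem_cons_self s r) ?_
      refine row_cont X w ws (fun v hv => hX w List.mem_cons_self v (List.mem_cons_of_mem _ hv))
        r ss (fun t u ss' => if u then Z X K (ws.map fun f => f t) ss' else 0) fun u ss' => ?_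
      cases u with
      | false => exact continuousAt_const
      | true =>
        simp only [if_true]
        exact ih (fun f hf g hg => hX f (List.mem_cons_of_mem _ hf) g (List.mem_cons_of_mem _ hg))
          (fun f hf => hK f (List.mem_cons_of_mem _ hf)) ss'

end general

section weights

variable {R : Type} [CommRing R] [TopologicalSpace R] [IsTopologicalRing R]
  {T : Type} [TopologicalSpace T] {t0 : T}

lemma cw_cont (z : R) {W : T → R} (hW : ContinuousAt W t0) (r c r' c' : Bool) :
    ContinuousAt (fun t => cw z (W t) r c r' c') t0 := by
  have h1 : ContinuousAt (fun t => z ^ 2 * W t - 1) t0 :=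
    (continuousAt_const.mul hW).sub continuousAt_const
  have h2 : ContinuousAt (fun t => (z - 2) * W t) t0 := continuousAt_const.mul hW
  have h3 : ContinuousAt (fun t => z ^ 2 - W t) t0 := continuousAt_const.sub hW
  cases r <;> cases c <;> cases r' <;> cases c' <;> simp only [cw] <;>
    first
      | exact h1
      | exact h2
      | exact h3
      | exact continuousAt_const

lemma ke_cont (z e : R) {W : T → R} (hW : ContinuousAt W t0) (s r : Bool) :
    ContinuousAt (fun t => ke z e (W t) s r) t0 := by
  unfold ke
  split_ifs
  · exact hW.add continuousAt_const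
  · exact continuousAt_const.mul hW
  · exact continuousAt_const

end weights

theorem t_CONT : S_CONT := by
  intro z l t0 hl
  constructor
  · unfold G
    simp only [List.length_map]
    refine Z_cont _ _ l (fun f hf g hg r c r' c' => ?_) (fun f _ s r => continuousAt_const) _
    exact cw_cont z ((hl f hf).mul (hl g hg)) r c r' c'
  · unfold A ZD
    simp only [List.length_map]
    haveI : IsTopologicalRing (DualNumber ℂ) :=
      { continuous_add := (inferInstance : ContinuousAdd (TrivSqZeroExt ℂ ℂ)).continuous_add
        continuous_mul := (inferInstance : ContinuousMul (TrivSqZeroExt ℂ ℂ)).continuous_mul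
        continuous_neg := (inferInstance : ContinuousNeg (TrivSqZeroExt ℂ ℂ)).continuous_neg }
    have hinl : ∀ f ∈ l, ContinuousAt (fun t => (TrivSqZeroExt.inl (f t) : DualNumber ℂ)) t0 :=
      fun f hf => TrivSqZeroExt.continuous_inl.continuousAt.comp (hl f hf)
    refine TrivSqZeroExt.continuous_snd.continuousAt.comp
      (f := fun t => Z (L := ℂ) (R := DualNumber ℂ)
        (fun a b => cw (TrivSqZeroExt.inl z) (TrivSqZeroExt.inl a * TrivSqZeroExt.inl b))
        (fun w => ke (TrivSqZeroExt.inl z) DualNumber.eps (TrivSqZeroExt.inl w))
        (l.map fun f => f t) (List.replicate l.length false)) ?_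
    refine Z_cont _ _ l (fun f hf g hg r c r' c' => ?_) (fun f hf s r => ?_) _
    · exact cw_cont _ ((hinl f hf).mul (hinl g hg)) r c r' c'
    · exact ke_cont _ _ (hinl f hf) s r

end Pool.Agent.U875.OA
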